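import Mathlib

/-!
# Everywhere defined paranormal operators are bounded (MP_69a59d_an)

Let `T` be a linear map of a Banach space into itself with `‖T x‖² ≤ ‖T (T x)‖ ‖x‖` for all `x`.
Then `T` is bounded.  The proof is a gliding hump: if `T` were unbounded, one could choose partial
sums `z N` of a rapidly convergent series with `‖T (z N)‖ ≥ N`, each tail being tiny compared with
`‖T (T (z N))‖`, and the inequality fails at the tails `z - z N`.
-/

set_option autoImplicit false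
open Filter Topology

namespace Pool.Agent.Results.MP_69a59d_an.ParanormalBounded

/-- If `T` and `S` are linear maps (not assumed continuous) defined on a Banach space and
`‖T x‖² ≤ ‖S x‖ ‖x‖` for all `x`, then `T` is bounded. -/
theorem bounded_of_sq_le {𝕜 : Type*} {E : Type*} {F : Type*} {G : Type*} [RCLike 𝕜]
    [NormedAddCommGroup E] [NormedSpace 𝕜 E] [CompleteSpace E]
    [NormedAddCommGroup F] [NormedSpace 𝕜 F] [NormedAddCommGroup G] [NormedSpace 𝕜 G]
    (T : E →ₗ[𝕜] F) (S : E →ₗ[𝕜] G) (h : ∀ x, ‖T x‖ ^ 2 ≤ ‖S x‖ * ‖x‖) :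
    ∃ C : ℝ, ∀ x, ‖T x‖ ≤ C * ‖x‖ := by
  by_contra hcon
  push Not at hcon
  have step : ∀ (z : E) (δ : ℝ) (N : ℕ), 0 < δ →
      ∃ v : E, ‖v‖ ≤ δ ∧ (N : ℝ) + 1 + ‖T z‖ ≤ ‖T v‖ := by
    intro z δ N hδ
    obtain ⟨x, hx⟩ := hcon (((N : ℝ) + 1 + ‖T z‖) / δ)
    have hx0 : x ≠ 0 := by
      rintro rfl
      simp at hx
    have hnx : 0 < ‖x‖ := norm_pos_iff.2 hx0
    refine ⟨((δ / ‖x‖ : ℝ) : 𝕜) • x, ?_, ?_⟩
    · rw [norm_smul, RCLike.norm_ofReal, abs_of_pos (div_pos hδ hnx)]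
      exact le_of_eq (div_mul_cancel₀ _ hnx.ne')
    · rw [map_smul, norm_smul, RCLike.norm_ofReal, abs_of_pos (div_pos hδ hnx)]
      have h1 : δ / ‖x‖ * ((((N : ℝ) + 1 + ‖T z‖) / δ) * ‖x‖) = (N : ℝ) + 1 + ‖T z‖ := by
        field_simp
      calc (N : ℝ) + 1 + ‖T z‖ = δ / ‖x‖ * ((((N : ℝ) + 1 + ‖T z‖) / δ) * ‖x‖) := h1.symm
        _ ≤ δ / ‖x‖ * ‖T x‖ := mul_le_mul_of_nonneg_left hx.le (div_pos hδ hnx).le
  classical
  let V : E → ℝ → ℕ → E := fun z δ N => if hδ : 0 < δ then (step z δ N hδ).choose else 0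
  let f : ℕ → E × ℝ := fun n => Nat.rec (motive := fun _ => E × ℝ) (0, 1 / 2)
    (fun N p => (p.1 + V p.1 p.2 N,
      min (p.2 / 2) (1 / (2 * (1 + ‖S (p.1 + V p.1 p.2 N)‖))))) n
  have f0 : f 0 = (0, 1 / 2) := rfl
  have fs : ∀ N, f (N + 1) = ((f N).1 + V (f N).1 (f N).2 N,
      min ((f N).2 / 2) (1 / (2 * (1 + ‖S ((f N).1 + V (f N).1 (f N).2 N)‖)))) := fun N => rfl
  have δpos : ∀ N, 0 < (f N).2 := by
    intro N
    induction N with
    | zero => rw [f0]; norm_num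
    | succ N ih =>
      rw [fs N]
      refine lt_min (by linarith) ?_
      positivity
  have δS : ∀ N, (f N).2 * (2 * (1 + ‖S (f N).1‖)) ≤ 1 := by
    intro N
    have key : (f N).2 ≤ 1 / (2 * (1 + ‖S (f N).1‖)) := by
      cases N with
      | zero => rw [f0]; simp
      | succ N => rw [fs N]; exact min_le_right _ _
    have hp : 0 < 2 * (1 + ‖S (f N).1‖) := by positivity
    calc (f N).2 * (2 * (1 + ‖S (f N).1‖)) ≤ 1 / (2 * (1 + ‖S (f N).1‖)) * (2 * (1 + ‖S (f N).1‖)) :=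
          mul_le_mul_of_nonneg_right key hp.le
      _ = 1 := by field_simp
  have δhalf : ∀ N, (f (N + 1)).2 ≤ (f N).2 / 2 := by
    intro N
    rw [fs N]
    exact min_le_left _ _
  have hV : ∀ N, ‖V (f N).1 (f N).2 N‖ ≤ (f N).2 ∧
      (N : ℝ) + 1 + ‖T (f N).1‖ ≤ ‖T (V (f N).1 (f N).2 N)‖ := by
    intro N
    have : V (f N).1 (f N).2 N = (step (f N).1 (f N).2 N (δpos N)).choose := by
      simp only [V]
      rw [dif_pos (δpos N)]
    rw [this]
    exact (step (f N).1 (f N).2 N (δpos N)).choose_spec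
  have hz : ∀ N, (f (N + 1)).1 = (f N).1 + V (f N).1 (f N).2 N := fun N => by rw [fs N]
  have hTz : ∀ N : ℕ, (N : ℝ) ≤ ‖T (f N).1‖ := by
    intro N
    cases N with
    | zero => simp
    | succ N =>
      rw [hz N, map_add]
      have h1 := (hV N).2
      have h2 : ‖T (V (f N).1 (f N).2 N)‖ - ‖T (f N).1‖ ≤
          ‖T (f N).1 + T (V (f N).1 (f N).2 N)‖ := by
        have := norm_sub_norm_le (T (V (f N).1 (f N).2 N)) (-(T (f N).1))
        rw [norm_neg, sub_neg_eq_add, add_comm (T (V (f N).1 (f N).2 N))] at this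
        exact this
      push_cast
      linarith
  have tail : ∀ k N, ‖(f (N + k)).1 - (f N).1‖ ≤ 2 * (f N).2 := by
    intro k
    induction k with
    | zero => intro N; simpa using (δpos N).le
    | succ k ih =>
      intro N
      have h1 : N + (k + 1) = (N + 1) + k := by ring
      rw [h1]
      have h2 := ih (N + 1)
      have h3 : (f (N + 1 + k)).1 - (f N).1 =
          ((f (N + 1 + k)).1 - (f (N + 1)).1) + V (f N).1 (f N).2 N := by
        rw [hz N]; abel
      rw [h3]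
      refine (norm_add_le _ _).trans ?_
      have h4 := (hV N).1
      have h5 := δhalf N
      linarith
  have δgeom : ∀ N, (f N).2 ≤ (1 / 2) ^ N := by
    intro N
    induction N with
    | zero => rw [f0]; norm_num
    | succ N ih =>
      have := δhalf N
      rw [pow_succ]
      linarith
  have hcauchy : CauchySeq fun N => (f N).1 := by
    refine cauchySeq_of_le_tendsto_0 (fun N => 4 * (1 / 2 : ℝ) ^ N) ?_ ?_
    · intro n m N hn hm
      obtain ⟨a, rfl⟩ := Nat.exists_eq_add_of_le hn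
      obtain ⟨b, rfl⟩ := Nat.exists_eq_add_of_le hm
      rw [dist_eq_norm]
      have h1 := tail a N
      have h2 := tail b N
      have h3 : (f (N + a)).1 - (f (N + b)).1 =
          ((f (N + a)).1 - (f N).1) - ((f (N + b)).1 - (f N).1) := by abel
      rw [h3]
      refine (norm_sub_le _ _).trans ?_
      have := δgeom N
      linarith
    · have := (tendsto_pow_atTop_nhds_zero_of_lt_one (r := (1 / 2 : ℝ)) (by norm_num)
        (by norm_num)).const_mul 4
      simpa using this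
  obtain ⟨z, hzlim⟩ := cauchySeq_tendsto_of_complete hcauchy
  have htail : ∀ N, ‖z - (f N).1‖ ≤ 2 * (f N).2 := by
    intro N
    have hl : Tendsto (fun k => ‖(f (N + k)).1 - (f N).1‖) atTop (𝓝 ‖z - (f N).1‖) := by
      have h1 : Tendsto (fun k => (f (N + k)).1) atTop (𝓝 z) := by
        have := (tendsto_add_atTop_iff_nat (f := fun N => (f N).1) N).2 hzlim
        simpa [add_comm] using this
      exact (h1.sub_const _).norm
    exact le_of_tendsto' hl fun k => tail k N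
  have hbound : ∀ N : ℕ, ‖T (z - (f N).1)‖ ^ 2 ≤ ‖S z‖ + 1 := by
    intro N
    refine (h _).trans ?_
    have h1 : ‖S (z - (f N).1)‖ ≤ ‖S z‖ + ‖S (f N).1‖ := by
      rw [map_sub]; exact norm_sub_le _ _
    have h2 := htail N
    have h3 := δS N
    have h4 := δpos N
    have h5 : ‖z - (f N).1‖ * (1 + ‖S (f N).1‖) ≤ 1 := by
      have : ‖z - (f N).1‖ * (1 + ‖S (f N).1‖) ≤ 2 * (f N).2 * (1 + ‖S (f N).1‖) :=
        mul_le_mul_of_nonneg_right h2 (by positivity)
      linarith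
    have h6 : ‖z - (f N).1‖ ≤ 1 := by
      have h7 : ‖z - (f N).1‖ * 1 ≤ ‖z - (f N).1‖ * (1 + ‖S (f N).1‖) :=
        mul_le_mul_of_nonneg_left (by linarith [norm_nonneg (S (f N).1)]) (norm_nonneg _)
      linarith
    calc ‖S (z - (f N).1)‖ * ‖z - (f N).1‖ ≤ (‖S z‖ + ‖S (f N).1‖) * ‖z - (f N).1‖ :=
          mul_le_mul_of_nonneg_right h1 (norm_nonneg _)
      _ = ‖S z‖ * ‖z - (f N).1‖ + ‖z - (f N).1‖ * ‖S (f N).1‖ := by ring
      _ ≤ ‖S z‖ * 1 + 1 := by
          refine add_le_add (mul_le_mul_of_nonneg_left h6 (norm_nonneg _)) ?_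
          have : 0 ≤ ‖z - (f N).1‖ := norm_nonneg _
          linarith
      _ = ‖S z‖ + 1 := by ring
  obtain ⟨N, hN⟩ := exists_nat_gt (‖T z‖ + ‖S z‖ + 2)
  have h1 := hbound N
  have h2 : ‖T (f N).1‖ - ‖T z‖ ≤ ‖T (z - (f N).1)‖ := by
    rw [map_sub, norm_sub_rev]
    exact norm_sub_norm_le _ _
  have h3 := hTz N
  have h4 : ‖S z‖ + 2 < ‖T (z - (f N).1)‖ := by linarith
  have h5 : 0 ≤ ‖S z‖ := norm_nonneg _
  nlinarith

/-- A linear map `T : E → E`, defined on the whole normed space `E`, is *paranormal* if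
`‖T x‖² ≤ ‖T² x‖ ‖x‖` for all `x`.  No continuity is assumed. -/
def IsParanormal {𝕜 : Type*} {E : Type*} [RCLike 𝕜] [NormedAddCommGroup E] [NormedSpace 𝕜 E]
    (T : E →ₗ[𝕜] E) : Prop :=
  ∀ x : E, ‖T x‖ ^ 2 ≤ ‖T (T x)‖ * ‖x‖

/-- **Answer to Q1 (no).**  Every everywhere defined paranormal linear map on a real or complex
Banach space, in particular on a complex Hilbert space, is bounded. -/
theorem result {𝕜 : Type*} {E : Type*} [RCLike 𝕜] [NormedAddCommGroup E] [NormedSpace 𝕜 E]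
    [CompleteSpace E] (T : E →ₗ[𝕜] E) (hT : IsParanormal T) : ∃ C : ℝ, ∀ x, ‖T x‖ ≤ C * ‖x‖ :=
  bounded_of_sq_le T (T.comp T) hT

/-- The Hilbert space case, which is the question as posed. -/
theorem hilbert_case {H : Type*} [NormedAddCommGroup H] [InnerProductSpace ℂ H] [CompleteSpace H]
    (T : H →ₗ[ℂ] H) (hT : ∀ x : H, ‖T x‖ ^ 2 ≤ ‖T (T x)‖ * ‖x‖) :
    ∃ C : ℝ, ∀ x, ‖T x‖ ≤ C * ‖x‖ :=
  result T hT

end Pool.Agent.Results.MP_69a59d_an.ParanormalBounded
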